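import Pool.Agent.H42.APN.Pack

/-! # MP_0f7652_co: affine symmetries of APN permutations in even dimension -/

/-- Let `n` be even and `F` an APN permutation of `F_2^n`. The group of all pairs `(A, B)` of
affine permutations of `F_2^n` with `F ∘ A = B ∘ F` has odd order, and `A` has fewer than
`2^(n/2)` fixed points for every such pair with `A` not the identity. -/
theorem Pool.Agent.Results.MP_0f7652_co.AffineSymmetries.result (n : ℕ) (hn : Even n)
    (F : (Fin n → ZMod 2) → (Fin n → ZMod 2)) (hbij : Function.Bijective F)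
    (hapn : ∀ a b : Fin n → ZMod 2, a ≠ 0 →
      (Finset.univ.filter (fun x : Fin n → ZMod 2 => F (x + a) - F x = b)).card ≤ 2) :
    Odd (Nat.card {p : ((Fin n → ZMod 2) ≃ᵃ[ZMod 2] (Fin n → ZMod 2)) ×
        ((Fin n → ZMod 2) ≃ᵃ[ZMod 2] (Fin n → ZMod 2)) // ∀ x, F (p.1 x) = p.2 (F x)}) ∧
    ∀ A B : (Fin n → ZMod 2) ≃ᵃ[ZMod 2] (Fin n → ZMod 2), (∀ x, F (A x) = B (F x)) →
      A ≠ 1 → (Nat.card {x : Fin n → ZMod 2 // A x = x}) ^ 2 < 2 ^ n :=
  ⟨Pool.Agent.H42.APN.odd_card hn hapn hbij,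
    fun A B hc hne => Pool.Agent.H42.APN.few_fixed hapn hbij A B hc hne⟩
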