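import Pool.Agent.H28.APN3.Slim

/-! # MP_0f7652_co: the affine symmetries of APN permutations in even dimension -/

open APN

/-- Let `n` be even and `F` an APN permutation of the vector space of dimension `n` over the field
with two elements. For every affine symmetry `(A, B)` of `F`, the map `A` has neither exactly `4` nor
exactly `16` fixed points; if `A` has order three then `n ≥ 14` and `A` has at least `64` fixed points;
if `n = 8` and `A` is not the identity then `A` has exactly one fixed point. If `2^(n-1) - 1` is prime,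
it does not divide the number of affine symmetries. For `n = 8` this number divides `85`, for `n = 10`
it divides `341` or `511`, for `n = 12` its prime divisors are among `5, 7, 13, 23, 73, 89`. -/
theorem Pool.Agent.Results.MP_0f7652_co.SymmetryOrders.result (n : ℕ) (hn : Even n)
    (F : V n → V n) (hF : APNPerm F) :
    (∀ A B : V n → V n, (A, B) ∈ Sym F →
      fix A ≠ 4 ∧ fix A ≠ 16 ∧
      ((∀ x, A (A (A x)) = x) → A ≠ id → 14 ≤ n ∧ 64 ≤ fix A) ∧
      (n = 8 → A ≠ id → fix A = 1)) ∧
    ((2 ^ (n - 1) - 1).Prime → ¬ (2 ^ (n - 1) - 1) ∣ (Sym F).ncard) ∧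
    (n = 8 → (Sym F).ncard ∣ 85) ∧
    (n = 10 → (Sym F).ncard ∣ 341 ∨ (Sym F).ncard ∣ 511) ∧
    (n = 12 → ∀ p : ℕ, p.Prime → p ∣ (Sym F).ncard →
      p = 5 ∨ p = 7 ∨ p = 13 ∨ p = 23 ∨ p = 73 ∨ p = 89) :=
  Pool.Agent.H28.APN3.main n hn F hF
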